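import Mathlib

/-! QC part D7: a weighted sum (real analysis). -/

set_option autoImplicit false

open Finset

namespace Pool.Agent.Helper31.QC

lemma abel_cmp {E w : ℕ → ℝ} (hE0 : E 0 = 0) (hE : ∀ m, 1 ≤ m → 0 ≤ E m)
    (hw : ∀ m, 1 ≤ m → w (m + 1) ≤ w m) (t : ℕ) (ht : 1 ≤ t) :
    E t * w t ≤ ∑ m ∈ Icc 1 t, (E m - E (m - 1)) * w m := by
  induction t, ht using Nat.le_induction with
  | base => simp [hE0]
  | succ t ht ih =>
    rw [Finset.sum_Icc_succ_top (by omega), Nat.add_sub_cancel]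
    nlinarith [mul_nonneg (hE t ht) (sub_nonneg.2 (hw t ht))]

lemma phi_le {x : ℝ} (hx : 0 < x) : max 0 (Real.log x) + min 1 x ≤ 3 * Real.log (1 + x) := by
  rcases le_or_gt x 1 with h | h
  · rw [max_eq_left (Real.log_nonpos hx.le h), min_eq_right h, zero_add]
    have h1 : 1 - (1 + x)⁻¹ ≤ Real.log (1 + x) := Real.one_sub_inv_le_log_of_pos (by linarith)
    have h2 : x / 2 ≤ 1 - (1 + x)⁻¹ := by
      have h3 : 1 - (1 + x)⁻¹ = x / (1 + x) := by field_simp; ring
      rw [h3]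
      exact div_le_div_of_nonneg_left hx.le (by linarith) (by linarith)
    linarith
  · rw [max_eq_right (Real.log_nonneg h.le), min_eq_left h.le]
    have h1 : Real.log x ≤ Real.log (1 + x) := Real.log_le_log hx (by linarith)
    have h2 : Real.log 2 ≤ Real.log (1 + x) := Real.log_le_log (by norm_num) (by linarith)
    have h3 := Real.log_two_gt_d9
    linarith

lemma pow_step1 {α y : ℝ} (hα : 0 < α) (hα2 : α ≤ 1 / 2) (hy : 1 ≤ y) :
    1 / 2 * y ^ (-α) ≤ y ^ (1 - α) - (y - 1) ^ (1 - α) := by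
  have hy0 : 0 < y := by linarith
  have h1 : (1 + (-(1 / y))) ^ (1 - α) ≤ 1 + (1 - α) * (-(1 / y)) := by
    apply rpow_one_add_le_one_add_mul_self
    · rw [neg_le_neg_iff, div_le_one hy0]; exact hy
    · linarith
    · linarith
  have h2 : 1 + -(1 / y) = (y - 1) / y := by field_simp; ring
  rw [h2, Real.div_rpow (by linarith) hy0.le, div_le_iff₀ (Real.rpow_pos_of_pos hy0 _)] at h1
  have h3 : (1 + (1 - α) * -(1 / y)) * y ^ (1 - α) = y ^ (1 - α) - (1 - α) * y ^ (-α) := by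
    have : y ^ (1 - α) = y * y ^ (-α) := by
      rw [sub_eq_add_neg, Real.rpow_add hy0, Real.rpow_one]
    rw [this]; field_simp; ring
  rw [h3] at h1
  have h4 : 0 < y ^ (-α) := Real.rpow_pos_of_pos hy0 _
  nlinarith

lemma pow_step2 {α y : ℝ} (hα : 0 < α) (hα2 : α ≤ 1 / 2) (hy : 2 ≤ y) :
    α * (y ^ (-α) / y) ≤ (y - 1) ^ (-α) - y ^ (-α) := by
  have hy0 : 0 < y := by linarith
  have hy1 : 0 < y - 1 := by linarith
  have h1 : (1 + (-(1 / y))) ^ α ≤ 1 + α * (-(1 / y)) := by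
    apply rpow_one_add_le_one_add_mul_self
    · rw [neg_le_neg_iff, div_le_one hy0]; linarith
    · linarith
    · linarith
  have h2 : 1 + -(1 / y) = (y - 1) / y := by field_simp; ring
  rw [h2, Real.div_rpow hy1.le hy0.le] at h1
  have hA : 0 < (y - 1) ^ α := Real.rpow_pos_of_pos hy1 _
  have hB : 0 < y ^ α := Real.rpow_pos_of_pos hy0 _
  rw [Real.rpow_neg hy0.le, Real.rpow_neg hy1.le]
  have h4 : (y - 1) ^ α ≤ (1 - α / y) * y ^ α := by
    rw [div_le_iff₀ hB] at h1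
    have : (1 - α / y) = 1 + α * -(1 / y) := by ring
    rw [this]; exact h1
  have hs : 0 < 1 - α / y := by
    rw [sub_pos, div_lt_one hy0]; linarith
  have h5 : (1 + α / y) * (y ^ α)⁻¹ ≤ ((y - 1) ^ α)⁻¹ := by
    have h6 : ((1 - α / y) * y ^ α)⁻¹ ≤ ((y - 1) ^ α)⁻¹ := inv_anti₀ hA h4
    refine le_trans ?_ h6
    rw [mul_inv]
    apply mul_le_mul_of_nonneg_right _ (by positivity)
    rw [← one_div, le_div_iff₀ hs]
    nlinarith [sq_nonneg (α / y)]
  have h7 : α * ((y ^ α)⁻¹ / y) = α / y * (y ^ α)⁻¹ := by ring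
  rw [h7]
  linarith

lemma sumD {α r : ℝ} (hα : 0 < α) (hα2 : α ≤ 1 / 2) (hr : 1 ≤ r) (t : ℕ) :
    ∑ m ∈ Icc 1 t, (1 + (m : ℝ)) ^ (-α) / (r + m - 1) ≤ 4 / α * r ^ (-α) := by
  have hr0 : 0 < r := by linarith
  have hrp : 0 < r ^ (-α) := Real.rpow_pos_of_pos hr0 _
  -- first phase
  have A : ∀ t : ℕ, ∑ m ∈ Icc 1 t, (1 + (m : ℝ)) ^ (-α) / (r + m - 1) ≤
      2 / r * (1 + (t : ℝ)) ^ (1 - α) := by
    intro t
    induction t with
    | zero => simp; positivity
    | succ t ih =>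
      rw [Finset.sum_Icc_succ_top (by omega)]
      have h1 := pow_step1 (y := 1 + ((t + 1 : ℕ) : ℝ)) hα hα2 (by push_cast; linarith [Nat.cast_nonneg (α := ℝ) t])
      have e : 1 + ((t + 1 : ℕ) : ℝ) - 1 = 1 + (t : ℝ) := by push_cast; ring
      rw [e] at h1
      have h2 : (1 + ((t + 1 : ℕ) : ℝ)) ^ (-α) / (r + ((t + 1 : ℕ) : ℝ) - 1) ≤
          (1 + ((t + 1 : ℕ) : ℝ)) ^ (-α) / r := by
        apply div_le_div_of_nonneg_left (by positivity) hr0
        push_cast
        linarith [Nat.cast_nonneg (α := ℝ) t]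
      have h3 : (1 + ((t + 1 : ℕ) : ℝ)) ^ (-α) / r =
          2 / r * (1 / 2 * (1 + ((t + 1 : ℕ) : ℝ)) ^ (-α)) := by field_simp
      have h4 := mul_le_mul_of_nonneg_left h1 (by positivity : 0 ≤ 2 / r)
      rw [mul_sub] at h4
      linarith
  have A2 : ∀ t : ℕ, (t : ℝ) ≤ r → ∑ m ∈ Icc 1 t, (1 + (m : ℝ)) ^ (-α) / (r + m - 1) ≤
      4 * r ^ (-α) := by
    intro t ht
    refine (A t).trans ?_
    have h1 : (1 + (t : ℝ)) ^ (1 - α) ≤ (2 * r) ^ (1 - α) :=
      Real.rpow_le_rpow (by positivity) (by linarith) (by linarith)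
    have h2 : (2 * r) ^ (1 - α) ≤ 2 * (r * r ^ (-α)) := by
      rw [Real.mul_rpow (by norm_num) hr0.le]
      have h3 : (2 : ℝ) ^ (1 - α) ≤ 2 := by
        calc (2 : ℝ) ^ (1 - α) ≤ 2 ^ (1 : ℝ) :=
              Real.rpow_le_rpow_of_exponent_le (by norm_num) (by linarith)
          _ = 2 := Real.rpow_one 2
      have h4 : r ^ (1 - α) = r * r ^ (-α) := by
        rw [sub_eq_add_neg, Real.rpow_add hr0, Real.rpow_one]
      rw [h4]
      exact mul_le_mul_of_nonneg_right h3 (by positivity)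
    calc 2 / r * (1 + (t : ℝ)) ^ (1 - α) ≤ 2 / r * (2 * (r * r ^ (-α))) :=
          mul_le_mul_of_nonneg_left (h1.trans h2) (by positivity)
      _ = 4 * r ^ (-α) := by field_simp; ring
  have hα4 : 4 * r ^ (-α) ≤ 2 / α * r ^ (-α) := by
    apply mul_le_mul_of_nonneg_right _ hrp.le
    rw [le_div_iff₀ hα]; linarith
  set n := ⌊r⌋₊ with hn
  have hn1 : 1 ≤ n := Nat.le_floor (by simpa using hr)
  have hnr : (n : ℝ) ≤ r := Nat.floor_le hr0.le
  have hrn : r < n + 1 := Nat.lt_floor_add_one r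
  have hn1' : (1 : ℝ) ≤ n := by exact_mod_cast hn1
  rcases le_or_gt t n with h | h
  · have h1 := A2 t (le_trans (by exact_mod_cast h) hnr)
    have h2 : 2 / α * r ^ (-α) ≤ 4 / α * r ^ (-α) := by
      apply mul_le_mul_of_nonneg_right _ hrp.le
      exact div_le_div_of_nonneg_right (by norm_num) hα.le
    linarith
  · -- second phase
    have Bd : ∀ t : ℕ, n ≤ t → ∑ m ∈ Icc 1 t, (1 + (m : ℝ)) ^ (-α) / (r + m - 1) ≤
        4 * r ^ (-α) + 1 / α * ((n : ℝ) ^ (-α) - (t : ℝ) ^ (-α)) := by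
      intro t ht
      induction t, ht using Nat.le_induction with
      | base =>
        rw [sub_self, mul_zero, add_zero]
        exact A2 n hnr
      | succ t ht ih =>
        rw [Finset.sum_Icc_succ_top (by omega)]
        have ht1 : (1 : ℝ) ≤ t := by exact_mod_cast hn1.trans ht
        have h1 := pow_step2 (y := ((t + 1 : ℕ) : ℝ)) hα hα2 (by push_cast; linarith)
        have e : ((t + 1 : ℕ) : ℝ) - 1 = t := by push_cast; ring
        rw [e] at h1
        have h2 : (1 + ((t + 1 : ℕ) : ℝ)) ^ (-α) / (r + ((t + 1 : ℕ) : ℝ) - 1) ≤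
            ((t + 1 : ℕ) : ℝ) ^ (-α) / ((t + 1 : ℕ) : ℝ) := by
          apply div_le_div₀ (by positivity) _ (by positivity) (by linarith)
          apply Real.rpow_le_rpow_of_nonpos (by positivity) (by linarith) (by linarith)
        have h3 : ((t + 1 : ℕ) : ℝ) ^ (-α) / ((t + 1 : ℕ) : ℝ) =
            1 / α * (α * (((t + 1 : ℕ) : ℝ) ^ (-α) / ((t + 1 : ℕ) : ℝ))) := by field_simp
        have h4 := mul_le_mul_of_nonneg_left h1 (by positivity : 0 ≤ 1 / α)
        rw [mul_sub] at h4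
        rw [mul_sub] at ih ⊢
        linarith
    refine (Bd t h.le).trans ?_
    have h1 : (n : ℝ) ^ (-α) ≤ 2 * r ^ (-α) := by
      have h2 : (n : ℝ) ^ (-α) ≤ (r / 2) ^ (-α) :=
        Real.rpow_le_rpow_of_nonpos (by positivity) (by linarith) (by linarith)
      refine h2.trans ?_
      rw [Real.div_rpow hr0.le (by norm_num), Real.rpow_neg (by norm_num : (0 : ℝ) ≤ 2), div_inv_eq_mul,
        mul_comm]
      apply mul_le_mul_of_nonneg_right _ hrp.le
      calc (2 : ℝ) ^ α ≤ 2 ^ (1 : ℝ) :=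
            Real.rpow_le_rpow_of_exponent_le (by norm_num) (by linarith)
        _ = 2 := Real.rpow_one 2
    have h3 : 0 ≤ (t : ℝ) ^ (-α) := by positivity
    have h4 : 1 / α * ((n : ℝ) ^ (-α) - (t : ℝ) ^ (-α)) ≤ 1 / α * (2 * r ^ (-α)) :=
      mul_le_mul_of_nonneg_left (by linarith) (by positivity)
    have h5 : 1 / α * (2 * r ^ (-α)) = 2 / α * r ^ (-α) := by ring
    have h6 : 4 / α * r ^ (-α) = 2 / α * r ^ (-α) + 2 / α * r ^ (-α) := by ring
    linarith

theorem weighted_sum : ∃ C : ℝ, 0 < C ∧ ∀ (α B c r : ℝ) (t : ℕ) (K : ℕ → ℝ), 0 < α → α ≤ 1 / 2 →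
    0 ≤ c → 1 ≤ r → (t : ℝ) ≤ B → K 0 = 0 → (∀ m, 0 ≤ K (m + 1) - K m) →
    (∀ m : ℕ, 1 ≤ m → K m ≤ c * (max 0 (Real.log (m / r)) + min 1 (m / r))) →
    ∑ m ∈ Icc 1 t, (K m - K (m - 1)) * (B / (1 + m)) ^ α ≤ C * c / α * (B / r) ^ α := by
  refine ⟨12, by norm_num, ?_⟩
  intro α B c r t K hα hα2 hc hr htB hK0 _ hK
  have hr0 : 0 < r := by linarith
  rcases Nat.eq_zero_or_pos t with h0 | hpos
  · subst h0
    have hB : 0 ≤ B := by simpa using htB
    simp
    positivity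
  have ht1 : (1 : ℝ) ≤ t := by exact_mod_cast hpos
  have hB : 0 < B := by linarith
  -- comparison with `3 c log (1 + m / r)`
  set L : ℕ → ℝ := fun m => 3 * c * Real.log (1 + m / r) with hL
  have h1 := abel_cmp (E := fun m => L m - K m) (w := fun m => (B / (1 + m)) ^ α)
    (by simp [hL, hK0]) (fun m hm => by
      have hm0 : (0 : ℝ) < m := by exact_mod_cast hm
      have h2 := phi_le (x := (m : ℝ) / r) (by positivity)
      have h3 := hK m hm
      have h4 := mul_le_mul_of_nonneg_left h2 hc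
      simp only [hL]
      nlinarith)
    (fun m hm => by
      apply Real.rpow_le_rpow (by positivity) _ hα.le
      apply div_le_div_of_nonneg_left hB.le (by positivity)
      push_cast; linarith) t hpos
  have h2 : 0 ≤ (L t - K t) * (B / (1 + t)) ^ α := by
    apply mul_nonneg _ (by positivity)
    have h2 := phi_le (x := (t : ℝ) / r) (by positivity)
    have h3 := hK t hpos
    have h4 := mul_le_mul_of_nonneg_left h2 hc
    simp only [hL]
    nlinarith
  have h3 : ∑ m ∈ Icc 1 t, (K m - K (m - 1)) * (B / (1 + m)) ^ α ≤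
      ∑ m ∈ Icc 1 t, (L m - L (m - 1)) * (B / (1 + m)) ^ α := by
    rw [← sub_nonneg, ← Finset.sum_sub_distrib]
    refine le_trans (h2.trans h1) (le_of_eq ?_)
    apply Finset.sum_congr rfl
    intro m _
    ring
  refine h3.trans ?_
  have h4 : ∑ m ∈ Icc 1 t, (L m - L (m - 1)) * (B / (1 + m)) ^ α ≤
      ∑ m ∈ Icc 1 t, 3 * c * B ^ α * ((1 + (m : ℝ)) ^ (-α) / (r + m - 1)) := by
    apply Finset.sum_le_sum
    intro m hm
    rw [Finset.mem_Icc] at hm
    have hm1 : (1 : ℝ) ≤ m := by exact_mod_cast hm.1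
    have e1 : ((m - 1 : ℕ) : ℝ) = m - 1 := by rw [Nat.cast_sub hm.1]; simp
    have h5 : Real.log (1 + m / r) - Real.log (1 + ((m - 1 : ℕ) : ℝ) / r) ≤ 1 / (r + m - 1) := by
      rw [e1, ← Real.log_div (by positivity) (by
        have : 0 ≤ ((m : ℝ) - 1) / r := div_nonneg (by linarith) hr0.le
        positivity)]
      have h6 : (1 + (m : ℝ) / r) / (1 + ((m : ℝ) - 1) / r) = (r + m) / (r + m - 1) := by
        have h7 : r + (m : ℝ) - 1 ≠ 0 := by
          have : 0 < r + (m : ℝ) - 1 := by linarith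
          exact this.ne'
        have h8 : 1 + ((m : ℝ) - 1) / r = (r + m - 1) / r := by field_simp; ring
        have h9 : 1 + (m : ℝ) / r = (r + m) / r := by field_simp
        rw [h8, h9]
        field_simp
      rw [h6]
      have h7 : 0 < r + (m : ℝ) - 1 := by linarith
      have h8 := Real.log_le_sub_one_of_pos (x := (r + m) / (r + m - 1)) (by positivity)
      refine h8.trans (le_of_eq ?_)
      field_simp
      ring
    have h6 : (B / (1 + (m : ℝ))) ^ α = B ^ α * (1 + (m : ℝ)) ^ (-α) := by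
      rw [Real.div_rpow hB.le (by positivity), Real.rpow_neg (by positivity)]
      rfl
    have h7 : L m - L (m - 1) = 3 * c * (Real.log (1 + m / r) - Real.log (1 + ((m - 1 : ℕ) : ℝ) / r)) := by
      simp only [hL]; ring
    rw [h6, h7]
    have h8 : 0 ≤ 3 * c * (B ^ α * (1 + (m : ℝ)) ^ (-α)) := by positivity
    calc 3 * c * (Real.log (1 + m / r) - Real.log (1 + ((m - 1 : ℕ) : ℝ) / r)) *
          (B ^ α * (1 + (m : ℝ)) ^ (-α))
        = (Real.log (1 + m / r) - Real.log (1 + ((m - 1 : ℕ) : ℝ) / r)) *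
          (3 * c * (B ^ α * (1 + (m : ℝ)) ^ (-α))) := by ring
      _ ≤ 1 / (r + m - 1) * (3 * c * (B ^ α * (1 + (m : ℝ)) ^ (-α))) :=
          mul_le_mul_of_nonneg_right h5 h8
      _ = _ := by ring
  refine h4.trans ?_
  rw [← Finset.mul_sum]
  have h5 := mul_le_mul_of_nonneg_left (sumD hα hα2 hr t) (by positivity : 0 ≤ 3 * c * B ^ α)
  refine h5.trans (le_of_eq ?_)
  rw [Real.div_rpow hB.le hr0.le, Real.rpow_neg hr0.le]
  field_simp
  ring

end Pool.Agent.Helper31.QC
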