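import Pool.Agent.Helper97.QC.Base

/-! QC part K3: smoothing of the potential. -/

set_option autoImplicit false

open MeasureTheory ProbabilityTheory Filter Finset

namespace Pool.Agent.Helper31.QC

open Pool.Agent.Helper97.CP Pool.Agent.Helper97.QC

lemma nsq_nn (z : Z2) : 0 ≤ nsq z := by unfold nsq; positivity

lemma bx_sub (k : ℕ) : bx k ⊆ bx (k + 1) := by
  intro z hz
  rw [mem_bx] at hz ⊢
  push_cast
  exact ⟨by linarith [hz.1], by linarith [hz.2]⟩

/-- the potential with exponent one half summed over a box -/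
lemma box_half (k : ℕ) : ∑ z ∈ bx k, 1 / √(1 + nsq z) ≤ 1 + 12 * k := by
  induction k with
  | zero =>
    have h : ∀ z ∈ bx 0, 1 / √(1 + nsq z) ≤ 1 := by
      intro z _
      rw [div_le_one (Real.sqrt_pos.2 (by linarith [nsq_nn z]))]
      rw [Real.one_le_sqrt]
      linarith [nsq_nn z]
    refine (Finset.sum_le_sum h).trans ?_
    rw [Finset.sum_const, card_bx]
    simp
  | succ k ih =>
    rw [← Finset.sum_sdiff (bx_sub k)]
    have h1 : ∑ z ∈ bx (k + 1) \ bx k, 1 / √(1 + nsq z) ≤ 12 := by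
      have h2 : ∀ z ∈ bx (k + 1) \ bx k, 1 / √(1 + nsq z) ≤ 3 / 2 / ((k : ℝ) + 1) := by
        intro z hz
        rw [Finset.mem_sdiff] at hz
        have h3 := not_mem_bx hz.2
        have hk : (0 : ℝ) ≤ k := Nat.cast_nonneg k
        rw [div_le_div_iff₀ (Real.sqrt_pos.2 (by linarith [nsq_nn z])) (by positivity), one_mul]
        have h4 : (2 / 3 * ((k : ℝ) + 1)) ≤ √(1 + nsq z) := by
          apply Real.le_sqrt_of_sq_le
          nlinarith [sq_nonneg ((k : ℝ) - 1)]
        linarith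
      refine (Finset.sum_le_sum h2).trans ?_
      rw [Finset.sum_const, Finset.card_sdiff_of_subset (bx_sub k), card_bx, card_bx, nsmul_eq_mul]
      have h5 : (2 * (k + 1) + 1) ^ 2 - (2 * k + 1) ^ 2 = 8 * (k + 1) := by
        have : (2 * (k + 1) + 1) ^ 2 = 8 * (k + 1) + (2 * k + 1) ^ 2 := by ring
        omega
      rw [h5]
      push_cast
      have hk : (0 : ℝ) < (k : ℝ) + 1 := by positivity
      have : 8 * ((k : ℝ) + 1) * (3 / 2 / ((k : ℝ) + 1)) = 12 := by field_simp; norm_num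
      rw [this]
    push_cast
    linarith

/-- the case of the exponent one half -/
lemma A_half (m : ℕ) (x v : Z2) :
    A m (fun y => 1 / √(1 + nsq (y - v))) x ≤ 21 / √(1 + m) := by
  have hg1 : ∀ y : Z2, 1 / √(1 + nsq (y - v)) ≤ 1 := by
    intro y
    rw [div_le_one (Real.sqrt_pos.2 (by linarith [nsq_nn (y - v)]))]
    rw [Real.one_le_sqrt]
    linarith [nsq_nn (y - v)]
  rcases Nat.eq_zero_or_pos m with h0 | hm
  · subst h0
    rw [A_zero]
    refine (hg1 x).trans ?_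
    simp
  set k := Nat.sqrt m with hk
  have hk1 : 1 ≤ k := by
    rw [hk, Nat.le_sqrt']; omega
  have hkm : (k : ℝ) ^ 2 ≤ m := by exact_mod_cast Nat.sqrt_le' m
  have hmk : m ≤ k ^ 2 + 2 * k := by
    have := Nat.lt_succ_sqrt' m
    rw [← hk] at this
    have e : (k + 1) ^ 2 = k ^ 2 + 2 * k + 1 := by ring
    have h2 : m < (k + 1) ^ 2 := this
    omega
  have hmk' : (m : ℝ) ≤ (k : ℝ) ^ 2 + 2 * k := by exact_mod_cast hmk
  have hk1' : (1 : ℝ) ≤ k := by exact_mod_cast hk1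
  have hm' : (1 : ℝ) ≤ m := by exact_mod_cast hm
  have hm0 : (0 : ℝ) < m := by linarith
  have hs : 0 < √(1 + (m : ℝ)) := Real.sqrt_pos.2 (by positivity)
  have h1 : ∀ y, 1 / √(1 + nsq (y - v)) ≤ 1 / √(1 + (k : ℝ) ^ 2) +
      ∑ z ∈ bx k, 1 / √(1 + nsq z) * (if y = v + z then 1 else 0) := by
    intro y
    have hn : ∀ z ∈ bx k, 0 ≤ 1 / √(1 + nsq z) * (if y = v + z then (1 : ℝ) else 0) := by
      intro z _
      positivity
    by_cases h : y - v ∈ bx k
    · have h2 := Finset.single_le_sum hn h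
      have h3 : y = v + (y - v) := by abel
      rw [if_pos h3, mul_one] at h2
      have : 0 ≤ 1 / √(1 + (k : ℝ) ^ 2) := by positivity
      linarith
    · have h2 := not_mem_bx h
      have h3 := Finset.sum_nonneg hn
      have h4 : 1 / √(1 + nsq (y - v)) ≤ 1 / √(1 + (k : ℝ) ^ 2) := by
        apply one_div_le_one_div_of_le (Real.sqrt_pos.2 (by positivity))
        apply Real.sqrt_le_sqrt
        linarith
      linarith
  refine (A_mono h1).trans ?_
  rw [A_add, A_const, A_sum]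
  simp only [A_mul_left]
  have h2 : ∑ z ∈ bx k, 1 / √(1 + nsq z) * A m (fun y => if y = v + z then (1 : ℝ) else 0) x ≤
      ∑ z ∈ bx k, (1 / √(1 + nsq z)) * (1 / m) := by
    apply Finset.sum_le_sum
    intro z _
    exact mul_le_mul_of_nonneg_left (A_ind_le hm (v + z) x) (by positivity)
  rw [← Finset.sum_mul] at h2
  have h3 := mul_le_mul_of_nonneg_right (box_half k) (by positivity : 0 ≤ 1 / (m : ℝ))
  -- the two terms
  have h4 : 1 / √(1 + (k : ℝ) ^ 2) ≤ 3 / 2 / √(1 + m) := by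
    rw [div_le_div_iff₀ (Real.sqrt_pos.2 (by positivity)) hs, one_mul]
    have h5 : √(1 + (m : ℝ)) ≤ √((3 / 2) ^ 2 * (1 + (k : ℝ) ^ 2)) := by
      apply Real.sqrt_le_sqrt
      nlinarith [sq_nonneg ((k : ℝ) - 1)]
    rw [Real.sqrt_mul (by positivity), Real.sqrt_sq (by norm_num)] at h5
    exact h5
  have h6 : (1 + 12 * (k : ℝ)) * (1 / m) ≤ 13 * (3 / 2) / √(1 + m) := by
    have h7 : (1 + 12 * (k : ℝ)) * (1 / m) ≤ 13 * (k / m) := by
      rw [mul_one_div, mul_div_assoc', div_le_div_iff_of_pos_right hm0]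
      linarith
    have h8 : (k : ℝ) / m ≤ 3 / 2 / √(1 + m) := by
      rw [div_le_div_iff₀ hm0 hs]
      have h9 : √(1 + (m : ℝ)) ≤ 3 / 2 * √m := by
        have : √(1 + (m : ℝ)) ≤ √((3 / 2) ^ 2 * m) := by
          apply Real.sqrt_le_sqrt
          nlinarith
        rwa [Real.sqrt_mul (by positivity), Real.sqrt_sq (by norm_num)] at this
      have h10 : (k : ℝ) ≤ √m := by
        apply Real.le_sqrt_of_sq_le
        exact hkm
      have h11 : √(m : ℝ) * √m = m := Real.mul_self_sqrt hm0.le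
      have h12 : 0 ≤ √(m : ℝ) := Real.sqrt_nonneg _
      calc (k : ℝ) * √(1 + m) ≤ √m * (3 / 2 * √m) :=
            mul_le_mul h10 h9 hs.le h12
        _ = 3 / 2 * m := by linear_combination (3 / 2) * h11
    calc (1 + 12 * (k : ℝ)) * (1 / m) ≤ 13 * (k / m) := h7
      _ ≤ 13 * (3 / 2 / √(1 + m)) := by linarith
      _ = _ := by ring
  have h7 : 3 / 2 / √(1 + (m : ℝ)) + 13 * (3 / 2) / √(1 + m) = 21 / √(1 + m) := by
    rw [← add_div]; norm_num
  linarith

/-- concavity -/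
lemma tangent {t c p : ℝ} (ht : 0 ≤ t) (hc : 0 < c) (hp0 : 0 ≤ p) (hp1 : p ≤ 1) :
    t ^ p ≤ c ^ p * (1 - p) + c ^ p * (p / c) * t := by
  have h1 : (1 + (t / c - 1)) ^ p ≤ 1 + p * (t / c - 1) := by
    apply rpow_one_add_le_one_add_mul_self
    · have : 0 ≤ t / c := by positivity
      linarith
    · exact hp0
    · exact hp1
  have h2 : 1 + (t / c - 1) = t / c := by ring
  rw [h2, Real.div_rpow ht hc.le, div_le_iff₀ (Real.rpow_pos_of_pos hc _)] at h1
  refine h1.trans (le_of_eq ?_)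
  ring

theorem A_rho_le : ∃ C : ℝ, 0 < C ∧ ∀ (α B : ℝ) (m : ℕ) (x v : Z2), 0 < α → α ≤ 1 / 2 → 0 < B →
    A m (fun y => (B / (1 + nsq (y - v))) ^ α) x ≤ C * (B / (1 + m)) ^ α := by
  refine ⟨21, by norm_num, ?_⟩
  intro α B m x v hα hα2 hB
  have hm : (0 : ℝ) < 1 + m := by positivity
  have hs : 0 < √(1 + (m : ℝ)) := Real.sqrt_pos.2 hm
  set c : ℝ := 21 / √(1 + m) with hc
  have hc0 : 0 < c := by positivity
  have e1 : ∀ b : ℝ, 0 ≤ b → (B / (1 + b)) ^ α = B ^ α * (1 / √(1 + b)) ^ (2 * α) := by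
    intro b hb
    have h1 : (1 / √(1 + b)) ^ (2 * α) = (1 / (1 + b)) ^ α := by
      rw [Real.rpow_mul (by positivity)]
      congr 1
      rw [Real.rpow_two, div_pow, one_pow, Real.sq_sqrt (by positivity)]
    rw [h1, ← Real.mul_rpow hB.le (by positivity)]
    congr 1
    ring
  have h1 : ∀ y : Z2, (B / (1 + nsq (y - v))) ^ α ≤
      B ^ α * (c ^ (2 * α) * (1 - 2 * α)) +
      B ^ α * (c ^ (2 * α) * (2 * α / c)) * (1 / √(1 + nsq (y - v))) := by
    intro y
    rw [e1 _ (nsq_nn _)]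
    have h2 := tangent (t := 1 / √(1 + nsq (y - v))) (c := c) (p := 2 * α) (by positivity) hc0
      (by linarith) (by linarith)
    have h3 := mul_le_mul_of_nonneg_left h2 (by positivity : 0 ≤ B ^ α)
    refine h3.trans (le_of_eq ?_)
    ring
  refine (A_mono h1).trans ?_
  rw [A_add, A_const, A_mul_left]
  have h2 := A_half m x v
  have h3 : B ^ α * (c ^ (2 * α) * (2 * α / c)) * A m (fun y => 1 / √(1 + nsq (y - v))) x ≤
      B ^ α * (c ^ (2 * α) * (2 * α / c)) * c :=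
    mul_le_mul_of_nonneg_left h2 (by positivity)
  have h4 : B ^ α * (c ^ (2 * α) * (1 - 2 * α)) + B ^ α * (c ^ (2 * α) * (2 * α / c)) * c =
      B ^ α * c ^ (2 * α) := by
    field_simp
    ring
  have h5 : c ^ (2 * α) ≤ 21 * (1 / √(1 + (m : ℝ))) ^ (2 * α) := by
    have e2 : c = 21 * (1 / √(1 + (m : ℝ))) := by rw [hc]; ring
    rw [e2, Real.mul_rpow (by norm_num) (by positivity)]
    apply mul_le_mul_of_nonneg_right _ (by positivity)
    calc (21 : ℝ) ^ (2 * α) ≤ 21 ^ (1 : ℝ) :=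
          Real.rpow_le_rpow_of_exponent_le (by norm_num) (by linarith)
      _ = 21 := Real.rpow_one _
  rw [e1 _ (Nat.cast_nonneg m)]
  have h6 := mul_le_mul_of_nonneg_left h5 (by positivity : 0 ≤ B ^ α)
  linarith

end Pool.Agent.Helper31.QC
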