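import Pool.Agent.Helper97.QC.PDef
import Pool.Agent.Helper97.CP2.Tay
import Pool.Agent.Helper17.QC.K2
import Pool.Agent.Helper76.QC.D4

/-! Part S of QC (MP_f3a553_pr): deterministic bounds of the spread functional. -/

set_option autoImplicit false

open MeasureTheory ProbabilityTheory Filter Finset Topology

namespace Pool.Agent.Helper31.QC

open Pool.Agent.Helper97.CP Pool.Agent.Helper97.QC
open Pool.Agent.Helper76.QC (Tn_add Tn_mul_left Tn_eq Kf_sum Kf_nonneg Kf_le Kf_zero_le R_nonneg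
  kk_nonneg Tn_rho_le Kf_approx)

theorem nsq_nn' (z : Z2) : 0 ≤ nsq z := by rw [nsq_eq]; positivity

theorem Q_nsq (z : Z2) : Q nsq z = nsq z + 2 := by
  rw [Q_eq_av]
  have : (fun w => nsq (z + w)) = fun w => (fun _ => nsq z) w + (fun w => mm z w) w := by
    funext w; exact nsq_add z w
  rw [this, av_add, av_const, av_mm1]

theorem Qn_nsq (t : ℕ) (z : Z2) : Qn t nsq z = nsq z + 2 * t := by
  induction t generalizing z with
  | zero => simp [Qn]
  | succ t ih =>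
    show Q (Qn t nsq) z = _
    have : Qn t nsq = fun y => nsq y + (fun _ => 2 * (t : ℝ)) y := by
      funext y; exact ih y
    rw [this, Q_add, Q_nsq, Q_const]
    push_cast
    ring

/-- growth of the second moment -/
theorem Tn_nsq_le {s : ℝ} (hs : 0 ≤ s) (t : ℕ) (z : Z2) :
    Tn s t nsq z ≤ nsq z + 2 * t * (1 + Kf s t z) := by
  rw [Tn_eq, Qn_nsq]
  have h1 : ∑ m ∈ Icc 1 t, kk s m z * Qn (t - m) nsq 0 ≤ ∑ m ∈ Icc 1 t, kk s m z * (2 * t) := by
    refine Finset.sum_le_sum fun m hm => mul_le_mul_of_nonneg_left ?_ (kk_nonneg hs m z)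
    rw [Qn_nsq]
    have h0 : nsq (0 : Z2) = 0 := by rw [nsq_eq]; simp
    have h2 : ((t - m : ℕ) : ℝ) ≤ t := by exact_mod_cast Nat.sub_le t m
    rw [h0]; linarith
  rw [← Finset.sum_mul, ← Kf_sum] at h1
  nlinarith [h1]

theorem log_le_four {x : ℝ} (hx : 0 < x) : Real.log x ≤ 4 * x ^ (1 / 4 : ℝ) := by
  have h1 : 0 < x ^ (1 / 4 : ℝ) := Real.rpow_pos_of_pos hx _
  have h2 := Real.log_le_sub_one_of_pos h1
  rw [Real.log_rpow hx] at h2
  linarith

theorem psi_nonneg (M : ℕ) (z : Z2) : 0 ≤ psi M z := by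
  unfold psi
  have := nsq_nn' z
  positivity

theorem rho_le_psi (M : ℕ) (z : Z2) : ((M : ℝ) / (1 + nsq z)) ^ (1 / 4 : ℝ) ≤ psi M z := by
  unfold psi
  have := nsq_nn' z
  have : 0 ≤ nsq z / M := by positivity
  linarith

theorem nsq_le_psi (M : ℕ) (z : Z2) : nsq z / M ≤ psi M z := by
  unfold psi
  have := nsq_nn' z
  have : 0 ≤ ((M : ℝ) / (1 + nsq z)) ^ (1 / 4 : ℝ) := by positivity
  linarith

theorem log_ratio_le {M : ℕ} (hM : 1 ≤ M) (z : Z2) :
    Real.log ((M : ℝ) / (1 + nsq z)) ≤ 4 * psi M z := by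
  have h0 := nsq_nn' z
  have hM' : (0 : ℝ) < M := by exact_mod_cast hM
  have h1 : (0 : ℝ) < (M : ℝ) / (1 + nsq z) := by positivity
  have := log_le_four h1
  have := rho_le_psi M z
  linarith

theorem abs_log_le {M : ℕ} (hM : 1 ≤ M) (z : Z2) :
    |Real.log ((1 + nsq z) / M)| ≤ 1 + 4 * psi M z := by
  have h0 := nsq_nn' z
  have hM1 : (1 : ℝ) ≤ M := by exact_mod_cast hM
  have hM' : (0 : ℝ) < M := by linarith
  have hp := psi_nonneg M z
  rw [abs_le]
  constructor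
  · have h1 := log_ratio_le hM z
    have e : Real.log ((1 + nsq z) / M) = - Real.log ((M : ℝ) / (1 + nsq z)) := by
      rw [← Real.log_inv, inv_div]
    rw [e]; linarith
  · have h1 : (0 : ℝ) < (1 + nsq z) / M := by positivity
    have h2 := Real.log_le_sub_one_of_pos h1
    have h3 := nsq_le_psi M z
    have h4 : (1 + nsq z) / M ≤ 1 + nsq z / M := by
      rw [add_div]
      have : (1 : ℝ) / M ≤ 1 := by rw [div_le_one hM']; exact hM1
      linarith
    linarith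

section blk

variable {s CB : ℝ} {M L : ℕ}

theorem blk_pos (h : Blk s M L CB) : 0 < s / (1 - s * R L) := by
  obtain ⟨h1, -, -, h4, -, -⟩ := h
  have : 0 < 1 - s * R L := by linarith
  positivity

theorem blk_log_nonneg (h : Blk s M L CB) : 0 ≤ Real.log ((L : ℝ) / M) := by
  obtain ⟨h1, h2, h3, h4, -, -⟩ := h
  have hM' : (1 : ℝ) ≤ M := by exact_mod_cast h2
  have hL : (M : ℝ) ≤ L := by exact_mod_cast (by omega : M ≤ L)
  apply Real.log_nonneg
  rw [le_div_iff₀ (by linarith)]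
  linarith

theorem blk_CB_nonneg (h : Blk s M L CB) : 0 ≤ CB :=
  (mul_nonneg (Real.sqrt_nonneg _) (blk_log_nonneg h)).trans h.2.2.2.2.1

theorem blk_delta_log (h : Blk s M L CB) :
    s / (1 - s * R L) * Real.log ((L : ℝ) / M) ≤ CB * √(s / (1 - s * R L)) := by
  have h1 := h.2.2.2.2.1
  have h2 := (blk_pos h)
  calc s / (1 - s * R L) * Real.log ((L : ℝ) / M)
      = (√(s / (1 - s * R L)) * Real.log ((L : ℝ) / M)) * √(s / (1 - s * R L)) := by
        nth_rewrite 1 [← Real.mul_self_sqrt h2.le]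
        ring
    _ ≤ CB * √(s / (1 - s * R L)) := mul_le_mul_of_nonneg_right h1 (Real.sqrt_nonneg _)

theorem blk_R_diff_le (h : Blk s M L CB) : R L - R M ≤ Real.log ((L : ℝ) / M) :=
  Pool.Agent.Helper17.QC.R_diff h.2.1 (by have := h.2.2.1; omega)

theorem blk_R_diff_nonneg (h : Blk s M L CB) : 0 ≤ R L - R M := by
  have := Pool.Agent.Helper17.QC.R_mono (by have := h.2.2.1; omega : M ≤ L)
  linarith

end blk

theorem a_le (CB : ℝ) : ∃ C : ℝ, 0 < C ∧ ∀ (s : ℝ) (M L : ℕ), Blk s M L CB →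
    s / (1 - s * R L) ≤ 1 →
    0 ≤ s / (1 - s * R L) * (R L - R M) ∧ s / (1 - s * R L) * (R L - R M) ≤ C * √(s / (1 - s * R L)) := by
  refine ⟨|CB| + 1, by positivity, fun s M L h _ => ⟨mul_nonneg (blk_pos h).le (blk_R_diff_nonneg h), ?_⟩⟩
  have h1 := (blk_delta_log h)
  have h2 := mul_le_mul_of_nonneg_left (blk_R_diff_le h) (blk_pos h).le
  have h3 := Real.sqrt_nonneg (s / (1 - s * R L))
  have h4 := le_abs_self CB
  nlinarith

theorem Kf_a (CB : ℝ) : ∃ C : ℝ, 0 < C ∧ ∀ (s : ℝ) (M L : ℕ), Blk s M L CB →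
    s / (1 - s * R L) ≤ 1 → ∀ z : Z2, Even (z 0 + z 1) →
    |Kf s (L - M) z - s / (1 - s * R L) * (R L - R M)| ≤ C * (s / (1 - s * R L)) * (1 + psi M z) := by
  obtain ⟨C, hC, hK⟩ := Kf_approx
  refine ⟨C * (4 + |CB|), by positivity, fun s M L h hd z hz => ?_⟩
  obtain ⟨h1, h2, h3, h4, h5, h6⟩ := id h
  have key := hK s M L z h1 h4 hd h2 h3 hz
  have hpos := (blk_pos h)
  have hlog := (blk_delta_log h)
  have hCB := (blk_CB_nonneg h)
  have hRd := mul_le_mul_of_nonneg_left (blk_R_diff_le h) hpos.le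
  set δ := s / (1 - s * R L) with hδ
  have hsq : √δ ≤ 1 := by rw [Real.sqrt_le_one]; exact hd
  have hsq0 := Real.sqrt_nonneg δ
  have hab := abs_log_le h2 z
  have hpsi := psi_nonneg M z
  have e1 : δ * (R L - R M) ≤ CB := by nlinarith
  have e2 : C * δ * (1 + |Real.log ((1 + nsq z) / M)|) ≤ C * δ * (2 + 4 * psi M z) :=
    mul_le_mul_of_nonneg_left (by linarith) (by positivity)
  have e3 : C * δ ^ 2 * (R L - R M) ≤ C * δ * CB := by
    calc C * δ ^ 2 * (R L - R M) = C * δ * (δ * (R L - R M)) := by ring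
      _ ≤ C * δ * CB := mul_le_mul_of_nonneg_left e1 (by positivity)
  have e4 : C * δ * (2 + 4 * psi M z) + C * δ * CB ≤ C * (4 + |CB|) * δ * (1 + psi M z) := by
    rw [abs_of_nonneg hCB]
    have : C * δ * ((2 + 4 * psi M z) + CB) ≤ C * δ * ((4 + CB) * (1 + psi M z)) := by
      apply mul_le_mul_of_nonneg_left _ (by positivity)
      nlinarith
    nlinarith [this]
  linarith

theorem rho_le (CB : ℝ) : ∃ C : ℝ, 0 < C ∧ ∀ (s : ℝ) (M L : ℕ), Blk s M L CB →
    s / (1 - s * R L) ≤ 1 / 16 → ∀ z,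
    ((L : ℝ) / (1 + nsq z)) ^ √(s / (1 - s * R L)) ≤ C * (1 + psi M z) := by
  refine ⟨Real.exp CB, Real.exp_pos _, fun s M L h hd z => ?_⟩
  obtain ⟨h1, h2, h3, h4, h5, h6⟩ := id h
  have hpos := (blk_pos h)
  set δ := s / (1 - s * R L) with hδ
  have hM' : (1 : ℝ) ≤ M := by exact_mod_cast h2
  have hM0 : (0 : ℝ) < M := by linarith
  have hL0 : (0 : ℝ) < L := by
    have : (0 : ℕ) < L := by omega
    exact_mod_cast this
  have h0 := nsq_nn' z
  have hsq0 := Real.sqrt_nonneg δ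
  have hsq : √δ ≤ 1 / 4 := by
    rw [show (1 / 4 : ℝ) = √(1 / 16) by
      rw [show (1 / 16 : ℝ) = (1 / 4) ^ 2 by norm_num, Real.sqrt_sq (by norm_num)]]
    exact Real.sqrt_le_sqrt hd
  have e1 : (L : ℝ) / (1 + nsq z) = (L / M) * (M / (1 + nsq z)) := by field_simp
  rw [e1, Real.mul_rpow (by positivity) (by positivity)]
  have e2 : ((L : ℝ) / M) ^ √δ ≤ Real.exp CB := by
    rw [Real.rpow_def_of_pos (by positivity), mul_comm]
    exact Real.exp_le_exp.2 h5
  have e3 : ((M : ℝ) / (1 + nsq z)) ^ √δ ≤ 1 + psi M z := by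
    rcases le_total ((M : ℝ) / (1 + nsq z)) 1 with hc | hc
    · have := Real.rpow_le_one (by positivity) hc hsq0
      have := psi_nonneg M z
      linarith
    · have := Real.rpow_le_rpow_of_exponent_le hc hsq
      have := rho_le_psi M z
      linarith
  exact mul_le_mul e2 e3 (by positivity) (Real.exp_pos _).le

theorem ratio_quarter_le {B t : ℝ} (ht : 0 ≤ t) (h0 : 0 < B) (h : B ≤ 2 * (1 + t)) :
    (B / (1 + t)) ^ (1 / 4 : ℝ) ≤ 2 := by
  have h1 : B / (1 + t) ≤ 2 := by rw [div_le_iff₀ (by linarith)]; linarith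
  calc (B / (1 + t)) ^ (1 / 4 : ℝ) ≤ 2 ^ (1 / 4 : ℝ) :=
        Real.rpow_le_rpow (by positivity) h1 (by norm_num)
    _ ≤ 2 ^ (1 : ℝ) := Real.rpow_le_rpow_of_exponent_le (by norm_num) (by norm_num)
    _ = 2 := by norm_num

theorem Tn_psi (s : ℝ) (t M : ℕ) (z : Z2) :
    Tn s t (psi M) z = Tn s t (fun y => ((M : ℝ) / (1 + nsq y)) ^ (1 / 4 : ℝ)) z +
      1 / M * Tn s t nsq z := by
  rw [← Tn_mul_left, ← Tn_add]
  congr 1
  funext y
  unfold psi
  ring

theorem spread_init : ∃ C : ℝ, 0 < C ∧ ∀ (s : ℝ) (M : ℕ), 0 < s → s ≤ 1 / 2 → 1 ≤ M → s * R M ≤ 1 / 2 →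
    Tn s M (psi M) 0 ≤ C := by
  obtain ⟨C, hC, hT⟩ := Tn_rho_le
  refine ⟨C * 2 * 2 + 4, by positivity, fun s M hs hs2 hM hR => ?_⟩
  have hM' : (1 : ℝ) ≤ M := by exact_mod_cast hM
  have hM0 : (0 : ℝ) < M := by linarith
  have hp : 1 / 2 ≤ 1 - s * R M := by linarith
  have hp0 : 0 < 1 - s * R M := by linarith
  have hd : s / (1 - s * R M) ≤ 2 * s := by
    rw [div_le_iff₀ hp0]; nlinarith
  have hd1 : s / (1 - s * R M) ≤ 1 := by linarith
  have hR0 : 0 ≤ R M := R_nonneg M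
  have h1 := hT s M M 0 hs (by linarith) hd1 hM0 hM
  have h2 : s / (1 - s * R M) * Qs M 0 ≤ 1 := by
    have e : Qs M 0 = R M := rfl
    rw [e]
    have := mul_le_mul_of_nonneg_right hd hR0
    nlinarith
  have h3 : ((M : ℝ) / (1 + M)) ^ (1 / 4 : ℝ) ≤ 2 := ratio_quarter_le hM0.le hM0 (by linarith)
  have h4 : C * ((M : ℝ) / (1 + M)) ^ (1 / 4 : ℝ) * (1 + s / (1 - s * R M) * Qs M 0) ≤
      C * 2 * 2 := by
    have hq : 0 ≤ Qs M 0 := R_nonneg M
    have hdn : 0 ≤ s / (1 - s * R M) := by positivity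
    have hqn := mul_nonneg hdn hq
    apply mul_le_mul (mul_le_mul_of_nonneg_left h3 hC.le) (by linarith) (by positivity)
      (by positivity)
  have h5 := Tn_nsq_le hs.le M 0
  have h6 : 1 + Kf s M 0 ≤ 1 / (1 - s * R M) := Kf_zero_le hs.le (by linarith)
  have h7 : 1 / (1 - s * R M) ≤ 2 := by rw [div_le_iff₀ hp0]; linarith
  have e0 : nsq (0 : Z2) = 0 := by rw [nsq_eq]; simp
  rw [Tn_psi]
  have h8 : 1 / (M : ℝ) * Tn s M nsq 0 ≤ 4 := by
    rw [e0] at h5
    have : Tn s M nsq 0 ≤ 4 * M := by nlinarith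
    rw [one_div_mul_eq_div, div_le_iff₀ hM0]
    exact this
  linarith

theorem spread_step (CB : ℝ) : ∃ C η : ℝ, 0 < C ∧ 0 < η ∧ ∀ (s : ℝ) (M L : ℕ), Blk s M L CB →
    s / (1 - s * R L) ≤ η → ∀ z, Tn s (L - M) (psi L) z ≤ C + 1 / 8 * psi M z := by
  obtain ⟨C1, hC1, hT⟩ := Tn_rho_le
  obtain ⟨C2, hC2, hQ⟩ := Pool.Agent.Helper17.QC.Qs_le
  refine ⟨(2 * C1 + 2) * (1 + C2 * (|CB| + 1)), min 1 (1 / (16 * ((2 * C1 + 2) * (4 * C2)))),
    by positivity, by positivity, fun s M L h hd z => ?_⟩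
  obtain ⟨h1, h2, h3, h4, h5, h6⟩ := id h
  have hpos := (blk_pos h)
  have hlog := (blk_delta_log h)
  have hlog0 := (blk_log_nonneg h)
  have hCB := (blk_CB_nonneg h)
  have hd1 : s / (1 - s * R L) ≤ 1 := hd.trans (min_le_left _ _)
  have hd2 : s / (1 - s * R L) ≤ 1 / (16 * ((2 * C1 + 2) * (4 * C2))) := hd.trans (min_le_right _ _)
  have hp0 : 0 < 1 - s * R L := by linarith
  have hM' : (1 : ℝ) ≤ M := by exact_mod_cast h2
  have hM0 : (0 : ℝ) < M := by linarith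
  have hL0 : (0 : ℝ) < L := by
    have : (0 : ℕ) < L := by omega
    exact_mod_cast this
  have hML : 16 * (M : ℝ) ≤ L := by exact_mod_cast h3
  have h0 := nsq_nn' z
  have hpsi := psi_nonneg M z
  set t := L - M with ht
  have ht1 : 1 ≤ t := by omega
  have htL : t ≤ L := Nat.sub_le _ _
  have htR : R t ≤ R L := Pool.Agent.Helper17.QC.R_mono htL
  have ht0 : (0 : ℝ) ≤ t := Nat.cast_nonneg t
  have htL' : (t : ℝ) ≤ L := by exact_mod_cast htL
  have hLt : (L : ℝ) ≤ 2 * (1 + t) := by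
    have : L ≤ 2 * (1 + t) := by omega
    exact_mod_cast this
  have htR' : s * R t ≤ s * R L := mul_le_mul_of_nonneg_left htR h1.le
  have hst : s * R t < 1 := by linarith
  have hpt : 0 < 1 - s * R t := by linarith
  have hδt : s / (1 - s * R t) ≤ s / (1 - s * R L) :=
    div_le_div_of_nonneg_left h1.le hp0 (by linarith)
  have hδt1 : s / (1 - s * R t) ≤ 1 := hδt.trans hd1
  have hδt0 : 0 < s / (1 - s * R t) := by positivity
  set δ := s / (1 - s * R L) with hδ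
  have hQ0 : 0 ≤ Qs t z := Pool.Agent.Helper17.QC.Qs_nonneg t z
  -- the bound of `δ * Qs`
  have hQs : δ * Qs t z ≤ C2 * (|CB| + 1) + 4 * C2 * δ * psi M z := by
    have a1 := hQ t z ht1
    have a2 : Real.log ((t : ℝ) / (1 + nsq z)) ≤ Real.log ((L : ℝ) / M) + 4 * psi M z := by
      have ht0' : (0 : ℝ) < t := by exact_mod_cast ht1
      have b1 : Real.log ((t : ℝ) / (1 + nsq z)) ≤ Real.log ((L : ℝ) / (1 + nsq z)) :=
        Real.log_le_log (by positivity) (div_le_div_of_nonneg_right htL' (by linarith))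
      have b2 : (L : ℝ) / (1 + nsq z) = (L / M) * (M / (1 + nsq z)) := by field_simp
      rw [b2, Real.log_mul (by positivity) (by positivity)] at b1
      have b3 := log_ratio_le h2 z
      linarith
    have a3 : max 0 (Real.log ((t : ℝ) / (1 + nsq z))) ≤ Real.log ((L : ℝ) / M) + 4 * psi M z :=
      max_le (by positivity) a2
    have a4 : min 1 ((t : ℝ) / (1 + nsq z)) ≤ 1 := min_le_left _ _
    have a5 : Qs t z ≤ C2 * (Real.log ((L : ℝ) / M) + 4 * psi M z + 1) :=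
      a1.trans (mul_le_mul_of_nonneg_left (by linarith) hC2.le)
    have a6 : δ * Qs t z ≤ δ * (C2 * (Real.log ((L : ℝ) / M) + 4 * psi M z + 1)) :=
      mul_le_mul_of_nonneg_left a5 hpos.le
    have a7 : δ * Real.log ((L : ℝ) / M) ≤ |CB| := by
      have : √δ ≤ 1 := by rw [Real.sqrt_le_one]; exact hd1
      have := Real.sqrt_nonneg δ
      rw [abs_of_nonneg hCB]
      have := mul_le_mul_of_nonneg_left ‹√δ ≤ 1› hCB
      linarith
    have a8 : C2 * (δ * Real.log ((L : ℝ) / M)) ≤ C2 * |CB| :=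
      mul_le_mul_of_nonneg_left a7 hC2.le
    have a9 : C2 * δ ≤ C2 * 1 := mul_le_mul_of_nonneg_left hd1 hC2.le
    have a10 : δ * (C2 * (Real.log ((L : ℝ) / M) + 4 * psi M z + 1)) =
        C2 * (δ * Real.log ((L : ℝ) / M)) + 4 * C2 * δ * psi M z + C2 * δ := by ring
    linarith
  have hQt : s / (1 - s * R t) * Qs t z ≤ C2 * (|CB| + 1) + 4 * C2 * δ * psi M z :=
    (mul_le_mul_of_nonneg_right hδt hQ0).trans hQs
  have hK : Kf s t z ≤ C2 * (|CB| + 1) + 4 * C2 * δ * psi M z := (Kf_le h1.le hst z).trans hQt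
  have hX : 1 + (C2 * (|CB| + 1) + 4 * C2 * δ * psi M z) =
    (1 + C2 * (|CB| + 1)) + 4 * C2 * δ * psi M z := by ring
  -- the two parts
  have p1 : Tn s t (fun y => ((L : ℝ) / (1 + nsq y)) ^ (1 / 4 : ℝ)) z ≤
      C1 * 2 * (1 + (C2 * (|CB| + 1) + 4 * C2 * δ * psi M z)) := by
    have b1 := hT s L t z h1 hst hδt1 hL0 ht1
    refine b1.trans ?_
    have b2 : ((L : ℝ) / (1 + t)) ^ (1 / 4 : ℝ) ≤ 2 := ratio_quarter_le ht0 hL0 hLt
    have b3 := mul_nonneg hδt0.le hQ0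
    exact mul_le_mul (mul_le_mul_of_nonneg_left b2 hC1.le) (by linarith) (by positivity)
      (by positivity)
  have p2 : 1 / (L : ℝ) * Tn s t nsq z ≤ 1 / 16 * psi M z +
      2 * (1 + (C2 * (|CB| + 1) + 4 * C2 * δ * psi M z)) := by
    have b1 := Tn_nsq_le h1.le t z
    have b2 : nsq z / L ≤ 1 / 16 * psi M z := by
      have c1 := nsq_le_psi M z
      have c2 : nsq z / L ≤ nsq z / (16 * M) :=
        div_le_div_of_nonneg_left h0 (by positivity) hML
      have c3 : nsq z / (16 * M) = 1 / 16 * (nsq z / M) := by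
        rw [mul_comm (16 : ℝ), ← div_div]; ring
      rw [c3] at c2
      linarith
    have hK0 : 0 ≤ 1 + Kf s t z := by
      have := Kf_nonneg h1.le t z
      linarith
    have b3 : 2 * (t : ℝ) * (1 + Kf s t z) / L ≤ 2 * (1 + Kf s t z) := by
      rw [div_le_iff₀ hL0]
      have hm := mul_le_mul_of_nonneg_left htL' hK0
      calc 2 * (t : ℝ) * (1 + Kf s t z) = 2 * ((1 + Kf s t z) * t) := by ring
        _ ≤ 2 * ((1 + Kf s t z) * L) := by linarith
        _ = 2 * (1 + Kf s t z) * L := by ring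
    calc 1 / (L : ℝ) * Tn s t nsq z ≤ 1 / (L : ℝ) * (nsq z + 2 * t * (1 + Kf s t z)) :=
          mul_le_mul_of_nonneg_left b1 (by positivity)
      _ = nsq z / L + 2 * (t : ℝ) * (1 + Kf s t z) / L := by ring
      _ ≤ 1 / 16 * psi M z + 2 * (1 + Kf s t z) := add_le_add b2 b3
      _ ≤ _ := by linarith
  rw [Tn_psi]
  have hfin : (2 * C1 + 2) * (4 * C2 * δ * psi M z) ≤ 1 / 16 * psi M z := by
    have hc : 0 < (2 * C1 + 2) * (4 * C2) := by positivity
    have h16 : (2 * C1 + 2) * (4 * C2) * δ ≤ 1 / 16 := by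
      calc (2 * C1 + 2) * (4 * C2) * δ
          ≤ (2 * C1 + 2) * (4 * C2) * (1 / (16 * ((2 * C1 + 2) * (4 * C2)))) :=
            mul_le_mul_of_nonneg_left hd2 hc.le
        _ = 1 / 16 := by field_simp
    calc (2 * C1 + 2) * (4 * C2 * δ * psi M z) = ((2 * C1 + 2) * (4 * C2) * δ) * psi M z := by ring
      _ ≤ 1 / 16 * psi M z := mul_le_mul_of_nonneg_right h16 hpsi
  have hsum : C1 * 2 * (1 + (C2 * (|CB| + 1) + 4 * C2 * δ * psi M z)) +
      2 * (1 + (C2 * (|CB| + 1) + 4 * C2 * δ * psi M z)) =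
      (2 * C1 + 2) * (1 + C2 * (|CB| + 1)) + (2 * C1 + 2) * (4 * C2 * δ * psi M z) := by ring
  linarith

end Pool.Agent.Helper31.QC
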